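import Mathlib.Order.UpperLower.Basic
import Mathlib.Data.Set.Finite.Lattice
import Mathlib.Data.Fintype.Pigeonhole
import Mathlib.Tactic

/-!
# The intermediate logic of `ω^n` is not locally finite for `n ≥ 2`

Already the formulas in two variables fall into infinitely many classes.
-/

namespace Pool.Agent.Results.MP_d96af6_lc.NotLocallyFinite

/-- Intuitionistic propositional formulas. -/
inductive IForm : Type
  | var : ℕ → IForm
  | bot : IForm
  | and : IForm → IForm → IForm
  | or : IForm → IForm → IForm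
  | imp : IForm → IForm → IForm

/-- Kripke forcing in a preorder `W` under the valuation `V`. -/
def Forces {W : Type*} [Preorder W] (V : ℕ → Set W) : IForm → W → Prop
  | .var n, w => w ∈ V n
  | .bot, _ => False
  | .and a b, w => Forces V a w ∧ Forces V b w
  | .or a b, w => Forces V a w ∨ Forces V b w
  | .imp a b, w => ∀ v, w ≤ v → Forces V a v → Forces V b v

/-- The intermediate logic of the partial order `W`: formulas true at every point under every
valuation of the variables by upward closed sets. -/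
def ILog (W : Type*) [Preorder W] : Set IForm :=
  {φ | ∀ V : ℕ → Set W, (∀ n, IsUpperSet (V n)) → ∀ w, Forces V φ w}

/-- `φ` is built from the variables `p_0, ..., p_{k-1}` only. -/
def InVars (k : ℕ) : IForm → Prop
  | .var n => n < k
  | .bot => True
  | .and a b => InVars k a ∧ InVars k b
  | .or a b => InVars k a ∧ InVars k b
  | .imp a b => InVars k a ∧ InVars k b

/-- `L`-equivalence of formulas: `(φ → ψ) ∧ (ψ → φ)` belongs to `L`. -/
def LEquiv (L : Set IForm) (φ ψ : IForm) : Prop :=
  IForm.and (.imp φ ψ) (.imp ψ φ) ∈ L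

/-- Up to `L`-equivalence there are only finitely many formulas in `p_0, ..., p_{k-1}`. -/
def FinitelyManyIn (L : Set IForm) (k : ℕ) : Prop :=
  ∃ S : Set IForm, S.Finite ∧ ∀ φ, InVars k φ → ∃ ψ ∈ S, LEquiv L φ ψ

/-- A logic is locally finite if for every `k` there are only finitely many formulas in `k`
variables up to equivalence. -/
def LocallyFinite (L : Set IForm) : Prop := ∀ k, FinitelyManyIn L k

/-- The variables `p`, `q`. -/
def P : IForm := .var 0
/-- See `P`. -/
def Q : IForm := .var 1

/-- The separating formulas. -/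
def F : ℕ → ℕ → IForm
  | 0, i => if i % 3 = 0 then .imp P Q else if i % 3 = 1 then .imp Q P else
      .imp (.and (.imp P Q) (.imp Q P)) (.or P Q)
  | n + 1, i => .imp (F n (i + 2)) (.or (F n i) (F n (i + 1)))

theorem inVars_F (n : ℕ) : ∀ i, InVars 2 (F n i) := by
  induction n with
  | zero =>
    intro i
    unfold F
    split_ifs <;> simp [InVars, P, Q]
  | succ n ih =>
    intro i
    exact ⟨ih _, ih _, ih _⟩

section

variable {n : ℕ}

/-- The valuation depending on a parameter `s`. -/
def Val (s : ℕ) (c0 c1 : Fin n) : ℕ → Set (Fin n → ℕ)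
  | 0 => {x | s < x c0 + x c1 ∨ (x c0 + x c1 = s ∧ x c0 % 3 = 0)}
  | 1 => {x | s < x c0 + x c1 ∨ (x c0 + x c1 = s ∧ x c0 % 3 = 1)}
  | _ + 2 => ∅

/-- Geometric meaning of the formulas. -/
def Good (s n i a b : ℕ) : Prop := ∀ a', a ≤ a' → a' + n + b ≤ s → a' % 3 ≠ i % 3

theorem val_upper (s : ℕ) (c0 c1 : Fin n) : ∀ k, IsUpperSet (Val s c0 c1 k) := by
  intro k x y hxy hx
  have h0 : x c0 ≤ y c0 := hxy c0
  have h1 : x c1 ≤ y c1 := hxy c1
  match k, hx with
  | 0, hx =>
    change s < y c0 + y c1 ∨ (y c0 + y c1 = s ∧ y c0 % 3 = 0)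
    rcases (hx : s < x c0 + x c1 ∨ (x c0 + x c1 = s ∧ x c0 % 3 = 0)) with h | ⟨h, h'⟩
    · left; omega
    · rcases Nat.lt_or_ge s (y c0 + y c1) with h2 | h2
      · left; exact h2
      · right
        have : y c0 = x c0 := by omega
        exact ⟨by omega, by rw [this]; exact h'⟩
  | 1, hx =>
    change s < y c0 + y c1 ∨ (y c0 + y c1 = s ∧ y c0 % 3 = 1)
    rcases (hx : s < x c0 + x c1 ∨ (x c0 + x c1 = s ∧ x c0 % 3 = 1)) with h | ⟨h, h'⟩
    · left; omega
    · rcases Nat.lt_or_ge s (y c0 + y c1) with h2 | h2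
      · left; exact h2
      · right
        have : y c0 = x c0 := by omega
        exact ⟨by omega, by rw [this]; exact h'⟩
  | k + 2, hx => exact hx.elim

theorem mem_val0 {s : ℕ} {c0 c1 : Fin n} {x : Fin n → ℕ} :
    Forces (Val s c0 c1) P x ↔ (s < x c0 + x c1 ∨ (x c0 + x c1 = s ∧ x c0 % 3 = 0)) := Iff.rfl

theorem mem_val1 {s : ℕ} {c0 c1 : Fin n} {x : Fin n → ℕ} :
    Forces (Val s c0 c1) Q x ↔ (s < x c0 + x c1 ∨ (x c0 + x c1 = s ∧ x c0 % 3 = 1)) := Iff.rfl

/-- Moving to a prescribed pair of coordinates. -/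
theorem exists_above {c0 c1 : Fin n} (hc : c0 ≠ c1) (x : Fin n → ℕ) (a b : ℕ)
    (ha : x c0 ≤ a) (hb : x c1 ≤ b) : ∃ y : Fin n → ℕ, x ≤ y ∧ y c0 = a ∧ y c1 = b := by
  refine ⟨Function.update (Function.update x c0 a) c1 b, ?_, ?_, ?_⟩
  · intro i
    by_cases h1 : i = c1
    · subst h1; simpa using hb
    · by_cases h0 : i = c0
      · subst h0; simpa [h1] using ha
      · simp [h0, h1]
  · simp [hc]
  · simp

theorem forces_PQ {s : ℕ} {c0 c1 : Fin n} (hc : c0 ≠ c1) (x : Fin n → ℕ) :
    Forces (Val s c0 c1) (.imp P Q) x ↔ Good s 0 0 (x c0) (x c1) := by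
  constructor
  · intro h a' ha hs hmod
    obtain ⟨y, hxy, hy0, hy1⟩ := exists_above hc x a' (s - a') ha (by omega)
    have hP : Forces (Val s c0 c1) P y := by
      rw [mem_val0]; right
      rw [hy0, hy1]; exact ⟨by omega, by simpa using hmod⟩
    have hQ := h y hxy hP
    rw [mem_val1, hy0, hy1] at hQ
    rcases hQ with h1 | ⟨_, h2⟩
    · omega
    · simp at hmod; omega
  · intro h y hxy hP
    rw [mem_val0] at hP
    rw [mem_val1]
    rcases hP with h1 | ⟨h1, h2⟩
    · exact Or.inl h1
    · exact absurd (by simpa using h2) (h (y c0) (hxy c0) (by have : x c1 ≤ y c1 := hxy c1; omega))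

theorem forces_QP {s : ℕ} {c0 c1 : Fin n} (hc : c0 ≠ c1) (x : Fin n → ℕ) :
    Forces (Val s c0 c1) (.imp Q P) x ↔ Good s 0 1 (x c0) (x c1) := by
  constructor
  · intro h a' ha hs hmod
    obtain ⟨y, hxy, hy0, hy1⟩ := exists_above hc x a' (s - a') ha (by omega)
    have hP : Forces (Val s c0 c1) Q y := by
      rw [mem_val1]; right
      rw [hy0, hy1]; exact ⟨by omega, by simpa using hmod⟩
    have hQ := h y hxy hP
    rw [mem_val0, hy0, hy1] at hQ
    rcases hQ with h1 | ⟨_, h2⟩
    · omega
    · simp at hmod; omega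
  · intro h y hxy hP
    rw [mem_val1] at hP
    rw [mem_val0]
    rcases hP with h1 | ⟨h1, h2⟩
    · exact Or.inl h1
    · exact absurd (by simpa using h2) (h (y c0) (hxy c0) (by have : x c1 ≤ y c1 := hxy c1; omega))

theorem good_congr {s m i j a b : ℕ} (h : i % 3 = j % 3) : Good s m i a b ↔ Good s m j a b := by
  unfold Good; rw [h]

theorem forces_F {s : ℕ} {c0 c1 : Fin n} (hc : c0 ≠ c1) (m : ℕ) :
    ∀ (i : ℕ) (x : Fin n → ℕ),
      Forces (Val s c0 c1) (F m i) x ↔ Good s m i (x c0) (x c1) := by
  induction m with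
  | zero =>
    intro i x
    unfold F
    split_ifs with h0 h1
    · rw [forces_PQ hc, good_congr (show 0 % 3 = i % 3 by omega)]
    · rw [forces_QP hc, good_congr (show 1 % 3 = i % 3 by omega)]
    · constructor
      · intro h a' ha hs hmod
        obtain ⟨y, hxy, hy0, hy1⟩ := exists_above hc x a' (s - a') ha (by omega)
        have h3 : Forces (Val s c0 c1) (.or P Q) y := by
          refine h y hxy ⟨?_, ?_⟩
          · rw [forces_PQ hc, hy0, hy1]
            intro a'' h1' h2'
            have : a'' = a' := by omega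
            subst this; omega
          · rw [forces_QP hc, hy0, hy1]
            intro a'' h1' h2'
            have : a'' = a' := by omega
            subst this; omega
        rcases h3 with h3 | h3
        · rw [mem_val0, hy0, hy1] at h3; omega
        · rw [mem_val1, hy0, hy1] at h3; omega
      · rintro h y hxy ⟨hPQ, hQP⟩
        rw [forces_PQ hc] at hPQ
        rw [forces_QP hc] at hQP
        have hx0 : x c0 ≤ y c0 := hxy c0
        have hx1 : x c1 ≤ y c1 := hxy c1
        rcases Nat.lt_or_ge s (y c0 + y c1) with h2 | h2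
        · left; exact Or.inl h2
        · exfalso
          have e0 := h (y c0) hx0 (by omega)
          have e1 := hPQ (y c0) le_rfl (by omega)
          have e2 := hQP (y c0) le_rfl (by omega)
          omega
  | succ m ih =>
    intro i x
    constructor
    · intro h a' ha hs hmod
      obtain ⟨y, hxy, hy0, hy1⟩ := exists_above hc x a' (s - (m + 1) - a') ha (by omega)
      have h3 := h y hxy ((ih (i + 2) y).mpr (by
        rw [hy0, hy1]
        intro a'' h1' h2'
        have : a'' = a' ∨ a'' = a' + 1 := by omega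
        rcases this with rfl | rfl <;> omega))
      rcases h3 with h3 | h3
      · rw [ih, hy0, hy1] at h3
        exact h3 a' le_rfl (by omega) hmod
      · rw [ih, hy0, hy1] at h3
        exact h3 (a' + 1) (by omega) (by omega) (by omega)
    · intro h y hxy h2
      rw [ih] at h2
      by_contra hcon
      have hcon' : ¬ (Forces (Val s c0 c1) (F m i) y ∨ Forces (Val s c0 c1) (F m (i + 1)) y) :=
        hcon
      rw [ih, ih] at hcon'
      have hcon1 : ¬ Good s m i (y c0) (y c1) := fun h => hcon' (Or.inl h)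
      have hcon2 : ¬ Good s m (i + 1) (y c0) (y c1) := fun h => hcon' (Or.inr h)
      unfold Good at hcon1 hcon2
      push Not at hcon1 hcon2
      obtain ⟨a1, h11, h12, h13⟩ := hcon1
      obtain ⟨a2, h21, h22, h23⟩ := hcon2
      have hx0 : x c0 ≤ y c0 := hxy c0
      have hx1 : x c1 ≤ y c1 := hxy c1
      rcases Nat.lt_or_ge a1 a2 with hlt | hge
      · exact h a1 (by omega) (by omega) h13
      · have : a2 ≠ a1 := by rintro rfl; omega
        exact h2 (a2 + 1) (by omega) (by omega) (by omega)

end

/-- **Negative answer to Q1 of MP_d96af6_lc.**  For every finite `n ≥ 2`, the intermediate logic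
of the `n`-th direct power of `(ω, ≤)` has infinitely many pairwise non-equivalent formulas in
two variables; in particular it is not locally finite. -/
theorem result : ∀ n : ℕ, 2 ≤ n →
    ¬ FinitelyManyIn (ILog (Fin n → ℕ)) 2 ∧ ¬ LocallyFinite (ILog (Fin n → ℕ)) := by
  intro n hn
  have main : ¬ FinitelyManyIn (ILog (Fin n → ℕ)) 2 := by
    rintro ⟨S, hS, h⟩
    choose f hfS hf using fun m : ℕ => h (F m 0) (inVars_F m 0)
    have hninj : ¬ Function.Injective (fun m : ℕ => (⟨f m, hfS m⟩ : S)) := by
      have : Finite S := hS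
      exact not_injective_infinite_finite _
    have key : ∀ a b : ℕ, a < b → f a ≠ f b := by
      intro a b hab heq
      have h1 := hf a
      have h2 := hf b
      rw [← heq] at h2
      have hc : (⟨0, by omega⟩ : Fin n) ≠ ⟨1, by omega⟩ := by
        intro hh; simpa using congrArg Fin.val hh
      set c0 : Fin n := ⟨0, by omega⟩
      set c1 : Fin n := ⟨1, by omega⟩
      have hu := val_upper (n := n) a c0 c1
      have hb : Forces (Val a c0 c1) (F b 0) (0 : Fin n → ℕ) := by
        rw [forces_F hc]
        intro a' _ h3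
        simp at h3
        omega
      have hψ : Forces (Val a c0 c1) (f a) (0 : Fin n → ℕ) := (h2 _ hu 0).1 0 le_rfl hb
      have ha : Forces (Val a c0 c1) (F a 0) (0 : Fin n → ℕ) := (h1 _ hu 0).2 0 le_rfl hψ
      rw [forces_F hc] at ha
      exact ha 0 (by simp) (by simp) rfl
    apply hninj
    intro a b hab
    have hab' : f a = f b := congrArg Subtype.val hab
    rcases Nat.lt_trichotomy a b with h | h | h
    · exact absurd hab' (key a b h)
    · exact h
    · exact absurd hab'.symm (key b a h)
  exact ⟨main, fun h => main (h 2)⟩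

end Pool.Agent.Results.MP_d96af6_lc.NotLocallyFinite
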